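import Pool.Agent.H17.GP5

namespace Pool.Agent.Results.MP_7fb950_al.QuasiLine
open Pool.Agent.H17.GP

theorem result (V : Type) [Finite V] (Γ : SimpleGraph V) (G : V → Type) [∀ v, Group (G v)]
    [∀ v, Finite (G v)] [∀ v, Nontrivial (G v)] :
    QuasiLine (Elec Γ G) ↔ Infinite (GProd Γ G) ∧ VirtCyc (GProd Γ G) :=
  ⟨fun h => vc_of_shape (shape_of_ql h), fun h => ql_of_shape (shape_of_vc h.1 h.2)⟩

end Pool.Agent.Results.MP_7fb950_al.QuasiLine
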